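import Pool.Agent.MP_160a79_an.KRotund

open Pool.Agent.MP_160a79_an.Kr

/-- For every `k ≥ 2` there is a nonseparable reflexive real Banach space of density `ℵ₁` with an
equivalent `(k + 1)`-rotund norm and no equivalent `k`-rotund norm. -/
theorem Pool.Agent.Results.MP_160a79_an.StrictRotund.result :
    ∀ k : ℕ, 2 ≤ k → ∃ (X : Type) (_ : NormedAddCommGroup X) (_ : NormedSpace ℝ X),
      CompleteSpace X ∧ Function.Surjective (NormedSpace.inclusionInDoubleDual ℝ X) ∧
      ¬ TopologicalSpace.SeparableSpace X ∧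
      (∃ D : Set X, Dense D ∧ Cardinal.mk D ≤ Cardinal.aleph 1) ∧
      (∃ N : X → ℝ, EqNorm N ∧ Rotund (k + 1) N) ∧
      ∀ N : X → ℝ, EqNorm N → ¬ Rotund k N := by
  intro k hk
  obtain ⟨k, rfl⟩ : ∃ j, k = j + 1 := ⟨k - 1, by omega⟩
  exact main k
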